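import Pool.Agent.R50.MC.Local

set_option autoImplicit false

/-!
# Edge counts between sets, pruning
-/

namespace Pool.Agent.T9h44.GS

open Finset Pool.Agent.Y394.AT

variable {V : Type} [Fintype V]

set_option linter.unusedSectionVars false

open Classical in
/-- number of `H`-neighbours of `v` in `B`, as a real number -/
noncomputable def dg (H : SimpleGraph V) (B : Finset V) (v : V) : ℝ :=
  ∑ b ∈ B, if H.Adj v b then (1 : ℝ) else 0

/-- number of pairs of `A × B` adjacent in `H` -/
noncomputable def ee (H : SimpleGraph V) (A B : Finset V) : ℝ :=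
  ∑ a ∈ A, dg H B a

open Classical in
theorem dg_eq (H : SimpleGraph V) (B : Finset V) (v : V) :
    dg H B v = ((B.filter (fun b => H.Adj v b)).card : ℝ) := by
  unfold dg
  rw [← Finset.sum_filter, Finset.sum_const, nsmul_eq_mul, mul_one]

theorem dg_nonneg (H : SimpleGraph V) (B : Finset V) (v : V) : 0 ≤ dg H B v := by
  rw [dg_eq]
  exact Nat.cast_nonneg _

theorem dg_le_card (H : SimpleGraph V) (B : Finset V) (v : V) : dg H B v ≤ B.card := by
  classical
  rw [dg_eq]
  exact_mod_cast Finset.card_filter_le _ _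

theorem dg_le_nb (H : SimpleGraph V) (B : Finset V) (v : V) : dg H B v ≤ (nb H v).card := by
  classical
  rw [dg_eq]
  have : B.filter (fun b => H.Adj v b) ⊆ nb H v := by
    intro x hx
    rw [mem_nb]
    exact (Finset.mem_filter.1 hx).2
  exact_mod_cast Finset.card_le_card this

theorem dg_mono (H : SimpleGraph V) {B B' : Finset V} (h : B ⊆ B') (v : V) :
    dg H B v ≤ dg H B' v := by
  classical
  rw [dg_eq, dg_eq]
  exact_mod_cast Finset.card_le_card (Finset.filter_subset_filter _ h)

theorem dg_le_of_le {H G : SimpleGraph V} (h : H ≤ G) (B : Finset V) (v : V) :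
    dg H B v ≤ dg G B v := by
  classical
  rw [dg_eq, dg_eq]
  have : B.filter (fun b => H.Adj v b) ⊆ B.filter (fun b => G.Adj v b) := by
    intro x hx
    rw [Finset.mem_filter] at hx ⊢
    exact ⟨hx.1, h hx.2⟩
  exact_mod_cast Finset.card_le_card this

theorem ee_comm (H : SimpleGraph V) (A B : Finset V) : ee H A B = ee H B A := by
  classical
  unfold ee dg
  rw [Finset.sum_comm]
  apply Finset.sum_congr rfl
  intro b _
  apply Finset.sum_congr rfl
  intro a _
  by_cases h : H.Adj a b
  · rw [if_pos h, if_pos h.symm]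
  · rw [if_neg h, if_neg (fun h' => h h'.symm)]

theorem ee_nonneg (H : SimpleGraph V) (A B : Finset V) : 0 ≤ ee H A B :=
  Finset.sum_nonneg fun _ _ => dg_nonneg _ _ _

open Classical in
theorem ee_erase (H : SimpleGraph V) (A B : Finset V) {a : V} (ha : a ∈ A) :
    ee H A B = ee H (A.erase a) B + dg H B a := by
  unfold ee
  rw [Finset.sum_erase_add _ _ ha]

/-- pruning a bipartite graph -/
theorem prune2 (H : SimpleGraph V) (α β : ℝ) (A B : Finset V)
    (h : α * A.card + β * B.card < ee H A B) (hα : 0 ≤ α) (hβ : 0 ≤ β) :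
    ∃ A' B' : Finset V, A' ⊆ A ∧ B' ⊆ B ∧ A'.Nonempty ∧ B'.Nonempty ∧
      (∀ a ∈ A', α < dg H B' a) ∧ ∀ b ∈ B', β < dg H A' b := by
  classical
  obtain ⟨P, hP⟩ : ∃ P : Finset V × Finset V → Prop, P = fun p => p.1 ⊆ A ∧ p.2 ⊆ B ∧
      α * p.1.card + β * p.2.card < ee H p.1 p.2 := ⟨_, rfl⟩
  have h0 : P (A, B) := by
    rw [hP]
    exact ⟨subset_rfl, subset_rfl, h⟩
  obtain ⟨p, hp, hmin⟩ := Finset.exists_min_image
    ((Finset.univ : Finset (Finset V × Finset V)).filter P) (fun p => p.1.card + p.2.card)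
    ⟨(A, B), Finset.mem_filter.2 ⟨Finset.mem_univ _, h0⟩⟩
  have hPp := (Finset.mem_filter.1 hp).2
  have hPp' : p.1 ⊆ A ∧ p.2 ⊆ B ∧ α * p.1.card + β * p.2.card < ee H p.1 p.2 := by
    rw [hP] at hPp
    exact hPp
  obtain ⟨h1, h2, h3⟩ := hPp'
  have hA : ∀ a ∈ p.1, α < dg H p.2 a := by
    intro a ha
    by_contra hcon
    push Not at hcon
    have h4 : ((p.1.erase a).card : ℝ) + 1 = p.1.card := by
      exact_mod_cast Finset.card_erase_add_one ha
    have h5 : P (p.1.erase a, p.2) := by
      rw [hP]
      refine ⟨(Finset.erase_subset _ _).trans h1, h2, ?_⟩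
      have h6 := ee_erase H p.1 p.2 ha
      have h7 : α * (p.1.card : ℝ) = α * ((p.1.erase a).card : ℝ) + α := by
        rw [← h4]; ring
      show α * ((p.1.erase a).card : ℝ) + β * (p.2.card : ℝ) < ee H (p.1.erase a) p.2
      linarith
    have h8 := hmin _ (Finset.mem_filter.2 ⟨Finset.mem_univ _, h5⟩)
    have h9 := Finset.card_erase_add_one ha
    simp only at h8
    omega
  have hB : ∀ b ∈ p.2, β < dg H p.1 b := by
    intro b hb
    by_contra hcon
    push Not at hcon
    have h4 : ((p.2.erase b).card : ℝ) + 1 = p.2.card := by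
      exact_mod_cast Finset.card_erase_add_one hb
    have h5 : P (p.1, p.2.erase b) := by
      rw [hP]
      refine ⟨h1, (Finset.erase_subset _ _).trans h2, ?_⟩
      have h6 := ee_erase H p.2 p.1 hb
      rw [ee_comm H p.2 p.1, ee_comm H (p.2.erase b) p.1] at h6
      have h7 : β * (p.2.card : ℝ) = β * ((p.2.erase b).card : ℝ) + β := by
        rw [← h4]; ring
      show α * (p.1.card : ℝ) + β * ((p.2.erase b).card : ℝ) < ee H p.1 (p.2.erase b)
      linarith
    have h8 := hmin _ (Finset.mem_filter.2 ⟨Finset.mem_univ _, h5⟩)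
    have h9 := Finset.card_erase_add_one hb
    simp only at h8
    omega
  have hne : p.1.Nonempty := by
    rw [Finset.nonempty_iff_ne_empty]
    intro h4
    rw [h4] at h3
    unfold ee at h3
    simp only [Finset.card_empty, Nat.cast_zero, mul_zero, zero_add, Finset.sum_empty] at h3
    have : 0 ≤ β * (p.2.card : ℝ) := by positivity
    linarith
  refine ⟨p.1, p.2, h1, h2, hne, ?_, hA, hB⟩
  obtain ⟨a, ha⟩ := hne
  rw [Finset.nonempty_iff_ne_empty]
  intro h4
  have h5 := hA a ha
  rw [h4] at h5
  unfold dg at h5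
  simp only [Finset.sum_empty] at h5
  linarith

/-- number of sets containing `a` and missing `b` -/
theorem card_sep [DecidableEq V] {a b : V} (hab : a ≠ b) :
    2 ^ (Fintype.card V) ≤
      4 * ((Finset.univ : Finset (Finset V)).filter (fun S => a ∈ S ∧ b ∉ S)).card := by
  have h1 : ((Finset.univ \ {a, b} : Finset V).powerset).card ≤
      ((Finset.univ : Finset (Finset V)).filter (fun S => a ∈ S ∧ b ∉ S)).card := by
    apply Finset.card_le_card_of_injOn (fun S => insert a S)
    · intro S hS
      rw [Finset.mem_coe, Finset.mem_powerset] at hS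
      rw [Finset.mem_coe, Finset.mem_filter]
      refine ⟨Finset.mem_univ _, Finset.mem_insert_self _ _, ?_⟩
      rw [Finset.mem_insert]
      rintro (h | h)
      · exact hab h.symm
      · have := hS h
        simp at this
    · intro S hS S' hS' h
      rw [Finset.mem_coe, Finset.mem_powerset] at hS hS'
      have ha : a ∉ S := fun h => by
        have := hS h
        simp at this
      have ha' : a ∉ S' := fun h => by
        have := hS' h
        simp at this
      have h2 : insert a S = insert a S' := h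
      rw [← Finset.erase_insert ha, h2, Finset.erase_insert ha']
  rw [Finset.card_powerset, Finset.card_sdiff_of_subset (Finset.subset_univ _),
    Finset.card_univ, Finset.card_pair hab] at h1
  have h2 : 2 ≤ Fintype.card V := by
    rw [← Finset.card_pair hab]
    exact Finset.card_le_univ _
  calc 2 ^ (Fintype.card V) = 4 * 2 ^ (Fintype.card V - 2) := by
        obtain ⟨n, hn⟩ : ∃ n, Fintype.card V = n + 2 := ⟨Fintype.card V - 2, by omega⟩
        rw [hn, Nat.add_sub_cancel, pow_add]
        ring
    _ ≤ _ := Nat.mul_le_mul_left 4 h1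

/-- making two sets disjoint -/
theorem disjointify (H : SimpleGraph V) (A B : Finset V) :
    ∃ A' B' : Finset V, A' ⊆ A ∧ B' ⊆ B ∧ Disjoint A' B' ∧ ee H A B / 4 ≤ ee H A' B' := by
  classical
  by_contra hcon
  push Not at hcon
  have h1 : ∀ S : Finset V, ee H (A.filter (fun a => a ∈ S)) (B.filter (fun b => b ∉ S)) <
      ee H A B / 4 := by
    intro S
    apply hcon _ _ (Finset.filter_subset _ _) (Finset.filter_subset _ _)
    rw [Finset.disjoint_left]
    intro x hx hx'
    exact (Finset.mem_filter.1 hx').2 (Finset.mem_filter.1 hx).2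
  have h2 : ∑ S : Finset V, ee H (A.filter (fun a => a ∈ S)) (B.filter (fun b => b ∉ S)) <
      ∑ _S : Finset V, ee H A B / 4 := by
    apply Finset.sum_lt_sum_of_nonempty Finset.univ_nonempty
    intro S _
    exact h1 S
  rw [Finset.sum_const, Finset.card_univ, Fintype.card_finset, nsmul_eq_mul] at h2
  have h3 : ∀ S : Finset V, ee H (A.filter (fun a => a ∈ S)) (B.filter (fun b => b ∉ S)) =
      ∑ a ∈ A, ∑ b ∈ B, if (a ∈ S ∧ b ∉ S) then (if H.Adj a b then (1 : ℝ) else 0) else 0 := by
    intro S
    unfold ee dg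
    rw [Finset.sum_filter]
    apply Finset.sum_congr rfl
    intro a _
    by_cases ha : a ∈ S
    · rw [if_pos ha, Finset.sum_filter]
      apply Finset.sum_congr rfl
      intro b _
      by_cases hb : b ∉ S
      · have h9 : a ∈ S ∧ b ∉ S := ⟨ha, hb⟩
        rw [if_pos hb]
        simp only [h9, not_false_eq_true, and_self, if_true]
      · have h9 : ¬ (a ∈ S ∧ b ∉ S) := fun h => hb h.2
        rw [if_neg hb]
        simp only [h9, if_false]
    · rw [if_neg ha]
      symm
      apply Finset.sum_eq_zero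
      intro b _
      have h9 : ¬ (a ∈ S ∧ b ∉ S) := fun h => ha h.1
      simp only [h9, if_false]
  rw [Finset.sum_congr rfl (fun S _ => h3 S), Finset.sum_comm] at h2
  have h4 : ∑ a ∈ A, ∑ b ∈ B, (2 : ℝ) ^ (Fintype.card V) / 4 * (if H.Adj a b then (1 : ℝ) else 0) ≤
      ∑ a ∈ A, ∑ S : Finset V, ∑ b ∈ B,
        if (a ∈ S ∧ b ∉ S) then (if H.Adj a b then (1 : ℝ) else 0) else 0 := by
    apply Finset.sum_le_sum
    intro a _
    rw [Finset.sum_comm]
    apply Finset.sum_le_sum
    intro b _
    rw [← Finset.sum_filter, Finset.sum_const, nsmul_eq_mul]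
    by_cases hab : H.Adj a b
    · rw [if_pos hab, mul_one, mul_one]
      have h5 := card_sep (H.ne_of_adj hab)
      have h6 : ((2 : ℝ) ^ (Fintype.card V)) ≤ 4 * (((Finset.univ : Finset (Finset V)).filter
        (fun S => a ∈ S ∧ b ∉ S)).card : ℝ) := by exact_mod_cast h5
      linarith
    · rw [if_neg hab, mul_zero, mul_zero]
  have h7 : ∑ a ∈ A, ∑ b ∈ B, (2 : ℝ) ^ (Fintype.card V) / 4 * (if H.Adj a b then (1 : ℝ) else 0) =
      (2 : ℝ) ^ (Fintype.card V) / 4 * ee H A B := by
    unfold ee dg
    rw [Finset.mul_sum]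
    apply Finset.sum_congr rfl
    intro a _
    rw [Finset.mul_sum]
  rw [h7] at h4
  push_cast at h2
  linarith

end Pool.Agent.T9h44.GS
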