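import Pool.Agent.T9h44.GS.Refine
import Pool.Agent.H367R3.GSBasic

set_option autoImplicit false

/-!
# Families of nearly complete pairs covering almost all edges
-/

namespace Pool.Agent.T9h44.GS

open Finset Pool.Agent.Y394.AT

set_option linter.unusedSectionVars false

open Classical in
/-- One nearly complete pair. -/
theorem one_pair (m k : ℕ) (T : SimpleGraph (Fin (m + 1))) (hT : T.IsTree) (c0 ε : ℝ)
    (hc0 : 0 < c0) (hc1 : c0 ≤ 1) (hε : 0 < ε) (hε1 : ε ≤ 1) :
    ∃ c : ℝ, 0 < c ∧ c ≤ 1 ∧ ∀ (V : Type) [Fintype V] (G H : SimpleGraph V) (d : ℝ), 0 < d →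
      Nonempty V → H ≤ G → (∀ v, ((nb G v).card : ℝ) ≤ d) → G.CliqueFree (k + 1) →
      IsEmpty (T ↪g G) → c0 * d * Fintype.card V ≤ ∑ v, ((nb H v).card : ℝ) →
      ∃ A B : Finset V, NPair G H ε (c * d) A B := by
  obtain ⟨c1, hc1p, hc1', d0, hd0, hfind⟩ := find_spot m k T hT c0 hc0 hc1
  obtain ⟨N, hN⟩ := Pool.Agent.W259.GS.noShatter T hT.isAcyclic.colorable_two (k + 1)
  obtain ⟨c2, hc2, href⟩ := refine_spot N (c1 / 4) ε (by positivity) (by linarith) hε hε1
  obtain ⟨c, hcd⟩ : ∃ c : ℝ, c = min c2 (min 1 (1 / d0)) := ⟨_, rfl⟩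
  have hc : 0 < c := by
    rw [hcd]
    exact lt_min hc2 (lt_min one_pos (by positivity))
  have hcc2 : c ≤ c2 := by rw [hcd]; exact min_le_left _ _
  have hc11 : c ≤ 1 := by rw [hcd]; exact (min_le_right _ _).trans (min_le_left _ _)
  have hcd0 : c ≤ 1 / d0 := by rw [hcd]; exact (min_le_right _ _).trans (min_le_right _ _)
  refine ⟨c, hc, hc11, ?_⟩
  intro V _ G H d hd hV hHG hdeg hfree hemp hsum
  by_cases hdd0 : d0 ≤ d
  · obtain ⟨A, B, hA, hB, hAB⟩ := hfind V G H d hdd0 hV hHG hdeg hfree hemp hsum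
    obtain ⟨A', B', hA', hB', hdisj, hee⟩ := disjointify H A B
    have h1 : d / c1 ≤ d / (c1 / 4) := by
      apply div_le_div_of_nonneg_left hd.le (by positivity) (by linarith)
    obtain ⟨A2, B2, h2⟩ := href V G H d hd hHG hdeg (fun X hX => hN V G X hfree hemp hX) A' B' hdisj
      (le_trans (by exact_mod_cast Finset.card_le_card hA') (hA.trans h1))
      (le_trans (by exact_mod_cast Finset.card_le_card hB') (hB.trans h1))
      (by
        refine le_trans ?_ hee
        have : c1 / 4 * d * d = c1 * d * d / 4 := by ring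
        rw [this]
        linarith)
    exact ⟨A2, B2, h2.mono (mul_le_mul_of_nonneg_right hcc2 hd.le)⟩
  · push Not at hdd0
    have hn : 0 < (Fintype.card V : ℝ) := by exact_mod_cast Fintype.card_pos
    have h1 : 0 < ∑ v, ((nb H v).card : ℝ) := lt_of_lt_of_le (by positivity) hsum
    obtain ⟨u, _, hu⟩ := Finset.exists_lt_of_sum_lt (s := Finset.univ) (f := fun _ : V => (0 : ℝ))
      (g := fun v => ((nb H v).card : ℝ)) (by simpa using h1)
    have hu' : 0 < (nb H u).card := by exact_mod_cast hu
    obtain ⟨v, hv⟩ := Finset.card_pos.1 hu'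
    rw [mem_nb] at hv
    have hcd1 : c * d ≤ 1 := by
      calc c * d ≤ 1 / d0 * d0 := mul_le_mul hcd0 hdd0.le hd.le (by positivity)
        _ = 1 := by field_simp
    have e1 : dg H {v} u = 1 := by
      unfold dg
      rw [Finset.sum_singleton, if_pos (hv)]
    have e2 : dg H {u} v = 1 := by
      unfold dg
      rw [Finset.sum_singleton, if_pos (hv.symm)]
    have e3 : dg G {v} u = 1 := by
      unfold dg
      rw [Finset.sum_singleton, if_pos (hHG hv)]
    have e4 : dg G {u} v = 1 := by
      unfold dg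
      rw [Finset.sum_singleton, if_pos ((hHG hv).symm)]
    refine ⟨{u}, {v}, Finset.singleton_nonempty _, Finset.singleton_nonempty _, ?_, ?_, ?_, ?_, ?_⟩
    · rw [Finset.disjoint_singleton]
      exact H.ne_of_adj hv
    · intro a ha
      rw [Finset.mem_singleton.1 ha, e1]
      exact hcd1
    · intro a ha
      rw [Finset.mem_singleton.1 ha, e2]
      exact hcd1
    · intro a ha
      rw [Finset.mem_singleton.1 ha, e3, Finset.card_singleton, Nat.cast_one, mul_one]
      linarith
    · intro a ha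
      rw [Finset.mem_singleton.1 ha, e4, Finset.card_singleton, Nat.cast_one, mul_one]
      linarith

variable {V : Type} [Fintype V]

/-- remove the edges between `A` and `B` -/
def rem (H : SimpleGraph V) (A B : Finset V) : SimpleGraph V where
  Adj u v := H.Adj u v ∧ ¬ ((u ∈ A ∧ v ∈ B) ∨ (v ∈ A ∧ u ∈ B))
  symm := ⟨fun u v h => ⟨h.1.symm, fun h' => h.2 h'.symm⟩⟩
  loopless := ⟨fun u h => H.irrefl h.1⟩

open Classical in
theorem rem_deg (H : SimpleGraph V) {A B : Finset V} (hAB : Disjoint A B) (v : V) :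
    ((nb (rem H A B) v).card : ℝ) = (nb H v).card - ((if v ∈ A then dg H B v else 0) +
      (if v ∈ B then dg H A v else 0)) := by
  have key : ∀ C : Finset V, ((nb H v \ C).card : ℝ) = (nb H v).card - dg H C v := by
    intro C
    have h1 : (nb H v \ C).card + (nb H v ∩ C).card = (nb H v).card :=
      Finset.card_sdiff_add_card_inter _ _
    have h2 : ((nb H v \ C).card : ℝ) + (nb H v ∩ C).card = (nb H v).card := by
      exact_mod_cast h1
    have h3 : (nb H v ∩ C) = C.filter (fun b => H.Adj v b) := by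
      ext x
      simp only [Finset.mem_inter, Finset.mem_filter, mem_nb]
      tauto
    rw [dg_eq, ← h3]
    linarith
  by_cases hA : v ∈ A
  · have hB : v ∉ B := Finset.disjoint_left.1 hAB hA
    rw [if_pos hA, if_neg hB, add_zero, ← key]
    congr 2
    ext x
    rw [mem_nb, Finset.mem_sdiff, mem_nb]
    show H.Adj v x ∧ ¬ ((v ∈ A ∧ x ∈ B) ∨ (x ∈ A ∧ v ∈ B)) ↔ _
    tauto
  · by_cases hB : v ∈ B
    · rw [if_neg hA, if_pos hB, zero_add, ← key]
      congr 2
      ext x
      rw [mem_nb, Finset.mem_sdiff, mem_nb]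
      show H.Adj v x ∧ ¬ ((v ∈ A ∧ x ∈ B) ∨ (x ∈ A ∧ v ∈ B)) ↔ _
      tauto
    · rw [if_neg hA, if_neg hB, add_zero, sub_zero]
      congr 2
      ext x
      rw [mem_nb, mem_nb]
      show H.Adj v x ∧ ¬ ((v ∈ A ∧ x ∈ B) ∨ (x ∈ A ∧ v ∈ B)) ↔ _
      tauto

open Classical in
/-- The greedy family. -/
theorem family (G : SimpleGraph V) (c0n ε r : ℝ) (hr : 0 < r)
    (hspot : ∀ H : SimpleGraph V, H ≤ G → c0n ≤ ∑ v, ((nb H v).card : ℝ) →
      ∃ A B : Finset V, NPair G H ε r A B) :
    ∀ (n : ℕ) (H : SimpleGraph V), H ≤ G → ∑ v, (nb H v).card = n →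
      ∃ (N : ℕ) (A B : Fin N → Finset V), (∀ i, NPair G G ε r (A i) (B i)) ∧
        (∀ v, r * ∑ i, (if v ∈ A i ∨ v ∈ B i then (1 : ℝ) else 0) ≤ (nb H v).card) ∧
        ∃ H' : SimpleGraph V, H' ≤ H ∧ ∑ v, ((nb H' v).card : ℝ) < c0n ∧
          ∀ u v, H.Adj u v → H'.Adj u v ∨ ∃ i, (u ∈ A i ∧ v ∈ B i) ∨ (v ∈ A i ∧ u ∈ B i) := by
  intro n
  induction n using Nat.strong_induction_on with
  | _ n ih =>
    intro H hHG hn
    by_cases hs : ∑ v, ((nb H v).card : ℝ) < c0n
    · refine ⟨0, Fin.elim0, Fin.elim0, fun i => i.elim0, ?_, H, le_rfl, hs, ?_⟩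
      · intro v
        simp
      · intro u v huv
        exact Or.inl huv
    · push Not at hs
      have hs1 : c0n ≤ ∑ v, ((nb H v).card : ℝ) := hs
      obtain ⟨A0, B0, h0⟩ := hspot H hHG hs1
      have hlt : ∑ v, (nb (rem H A0 B0) v).card < n := by
        rw [← hn]
        apply Finset.sum_lt_sum
        · intro v _
          apply Finset.card_le_card
          intro x hx
          rw [mem_nb] at hx ⊢
          exact hx.1
        · obtain ⟨a, ha⟩ := h0.neA
          refine ⟨a, Finset.mem_univ _, ?_⟩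
          have h1 := rem_deg H h0.disj a
          have h2 : a ∉ B0 := Finset.disjoint_left.1 h0.disj ha
          rw [if_pos ha, if_neg h2, add_zero] at h1
          have h3 := h0.degA a ha
          have h4 : ((nb (rem H A0 B0) a).card : ℝ) < (nb H a).card := by linarith
          exact_mod_cast h4
      obtain ⟨N, A, B, hAB, hcnt, H', hH', hH's, hcov⟩ := ih _ hlt (rem H A0 B0)
        (fun u v h => hHG h.1) rfl
      refine ⟨N + 1, Fin.cons A0 A, Fin.cons B0 B, ?_, ?_, H', fun u v h => (hH' h).1, hH's, ?_⟩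
      · intro i
        refine Fin.cases ?_ (fun j => ?_) i
        · simp only [Fin.cons_zero]
          exact ⟨h0.neA, h0.neB, h0.disj, fun a ha => (h0.degA a ha).trans (dg_le_of_le hHG _ _),
            fun b hb => (h0.degB b hb).trans (dg_le_of_le hHG _ _), h0.comA, h0.comB⟩
        · simp only [Fin.cons_succ]
          exact hAB j
      · intro v
        rw [Fin.sum_univ_succ]
        simp only [Fin.cons_zero, Fin.cons_succ]
        have h1 := hcnt v
        rw [rem_deg H h0.disj v] at h1
        rw [mul_add]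
        by_cases hA : v ∈ A0
        · have hB : v ∉ B0 := Finset.disjoint_left.1 h0.disj hA
          rw [if_pos hA, if_neg hB, add_zero] at h1
          have h3 := h0.degA v hA
          rw [if_pos (Or.inl hA), mul_one]
          linarith
        · by_cases hB : v ∈ B0
          · rw [if_neg hA, if_pos hB, zero_add] at h1
            have h3 := h0.degB v hB
            rw [if_pos (Or.inr hB), mul_one]
            linarith
          · rw [if_neg hA, if_neg hB, add_zero, sub_zero] at h1
            rw [if_neg (by rintro (h | h); exacts [hA h, hB h]), mul_zero, zero_add]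
            exact h1
      · intro u v huv
        by_cases h1 : (u ∈ A0 ∧ v ∈ B0) ∨ (v ∈ A0 ∧ u ∈ B0)
        · right
          refine ⟨0, ?_⟩
          simp only [Fin.cons_zero]
          exact h1
        · rcases hcov u v ⟨huv, h1⟩ with h2 | ⟨i, hi⟩
          · exact Or.inl h2
          · right
            refine ⟨i.succ, ?_⟩
            simp only [Fin.cons_succ]
            exact hi

end Pool.Agent.T9h44.GS
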