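import Pool.Agent.T9h44.GS.Basic

set_option autoImplicit false

/-!
# A dense graph without dense spots contains every tree
-/

namespace Pool.Agent.T9h44.GS

open Finset Pool.Agent.Y394.AT

set_option linter.unusedSectionVars false

variable {V : Type} [Fintype V]

open Classical in
/-- continuations of `z x` in `U` which are bad -/
noncomputable def bd (G H : SimpleGraph V) (U : Finset V) (t : ℝ) (z x : V) : Finset V :=
  (nb H x ∩ U).filter (fun w => G.Adj z w ∨ t ≤ (cd H z w : ℝ))

theorem sum_cd (H : SimpleGraph V) (z : V) :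
    ∑ w, (cd H z w : ℝ) = ∑ x ∈ nb H z, ((nb H x).card : ℝ) := by
  classical
  have h1 : ∀ w, (cd H z w : ℝ) = ∑ x ∈ nb H z, if H.Adj x w then (1 : ℝ) else 0 := by
    intro w
    rw [← Finset.sum_filter, Finset.sum_const, nsmul_eq_mul, mul_one]
    unfold cd
    congr 2
    ext x
    simp only [Finset.mem_filter, Finset.mem_univ, true_and, mem_nb]
    constructor
    · rintro ⟨h2, h3⟩
      exact ⟨h2, h3.symm⟩
    · rintro ⟨h2, h3⟩
      exact ⟨h2, h3.symm⟩
  rw [Finset.sum_congr rfl (fun w _ => h1 w), Finset.sum_comm]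
  apply Finset.sum_congr rfl
  intro x _
  rw [← Finset.sum_filter, Finset.sum_const, nsmul_eq_mul, mul_one]
  congr 2

open Classical in
theorem heavy_le (H : SimpleGraph V) {d δ : ℝ} (hd : 0 < d) (hδ : 0 < δ)
    (hdeg : ∀ v, ((nb H v).card : ℝ) ≤ d) (z : V) :
    (((Finset.univ : Finset V).filter (fun w => δ * d ≤ (cd H z w : ℝ))).card : ℝ) ≤ d / δ := by
  have h1 : (((Finset.univ : Finset V).filter (fun w => δ * d ≤ (cd H z w : ℝ))).card : ℝ) *
      (δ * d) ≤ d * d := by
    calc (((Finset.univ : Finset V).filter (fun w => δ * d ≤ (cd H z w : ℝ))).card : ℝ) *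
          (δ * d) = ∑ w ∈ (Finset.univ : Finset V).filter (fun w => δ * d ≤ (cd H z w : ℝ)),
            δ * d := by rw [Finset.sum_const, nsmul_eq_mul]
      _ ≤ ∑ w ∈ (Finset.univ : Finset V).filter (fun w => δ * d ≤ (cd H z w : ℝ)),
            (cd H z w : ℝ) := Finset.sum_le_sum fun w hw => (Finset.mem_filter.1 hw).2
      _ ≤ ∑ w, (cd H z w : ℝ) := Finset.sum_le_sum_of_subset_of_nonneg (Finset.filter_subset _ _)
            (fun _ _ _ => Nat.cast_nonneg _)
      _ = ∑ x ∈ nb H z, ((nb H x).card : ℝ) := sum_cd H z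
      _ ≤ ∑ x ∈ nb H z, d := Finset.sum_le_sum fun x _ => hdeg x
      _ = (nb H z).card * d := by rw [Finset.sum_const, nsmul_eq_mul]
      _ ≤ d * d := mul_le_mul_of_nonneg_right (hdeg z) hd.le
  rw [le_div_iff₀ hδ]
  have h2 : (((Finset.univ : Finset V).filter (fun w => δ * d ≤ (cd H z w : ℝ))).card : ℝ) * δ * d
      ≤ d * d := by
    rw [mul_assoc]
    exact h1
  exact le_of_mul_le_mul_right h2 hd

open Classical in
theorem sum_bd (G H : SimpleGraph V) (U : Finset V) (t : ℝ) (z : V) :
    ∑ x ∈ nb H z, ((bd G H U t z x).card : ℝ) ≤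
      ee H (nb H z) (nb G z) +
        ee H (nb H z) ((Finset.univ : Finset V).filter (fun w => t ≤ (cd H z w : ℝ))) := by
  unfold ee
  rw [← Finset.sum_add_distrib]
  apply Finset.sum_le_sum
  intro x _
  rw [dg_eq, dg_eq]
  have h1 : bd G H U t z x ⊆ (nb G z).filter (fun b => H.Adj x b) ∪
      ((Finset.univ : Finset V).filter (fun w => t ≤ (cd H z w : ℝ))).filter
        (fun b => H.Adj x b) := by
    intro w hw
    unfold bd at hw
    rw [Finset.mem_filter, Finset.mem_inter, mem_nb] at hw
    rw [Finset.mem_union, Finset.mem_filter, Finset.mem_filter, Finset.mem_filter, mem_nb]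
    rcases hw.2 with h | h
    · exact Or.inl ⟨h, hw.1.1⟩
    · exact Or.inr ⟨⟨Finset.mem_univ _, h⟩, hw.1.1⟩
  have h2 := (Finset.card_le_card h1).trans (Finset.card_union_le _ _)
  exact_mod_cast h2

open Classical in
/-- A subgraph `H` of large average degree of a graph `G` without induced `T` and without large
cliques has a dense spot. -/
theorem find_spot (m k : ℕ) (T : SimpleGraph (Fin (m + 1))) (hT : T.IsTree) (c0 : ℝ)
    (hc0 : 0 < c0) (hc1 : c0 ≤ 1) :
    ∃ c : ℝ, 0 < c ∧ c ≤ 1 ∧ ∃ d0 : ℝ, 0 < d0 ∧ ∀ (V : Type) [Fintype V] (G H : SimpleGraph V)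
      (d : ℝ), d0 ≤ d →
      Nonempty V → H ≤ G → (∀ v, ((nb G v).card : ℝ) ≤ d) → G.CliqueFree (k + 1) →
      IsEmpty (T ↪g G) → c0 * d * Fintype.card V ≤ ∑ v, ((nb H v).card : ℝ) →
      ∃ A B : Finset V, (A.card : ℝ) ≤ d / c ∧ (B.card : ℝ) ≤ d / c ∧ c * d * d ≤ ee H A B := by
  obtain ⟨δ, hδ, d1, hemb⟩ := embed_tree (m + 1) (k + 1) (by omega) (by omega) (c0 / 8)
    (by positivity) (by linarith)
  obtain ⟨δ', hδd⟩ : ∃ δ' : ℝ, δ' = min δ (c0 / 2) := ⟨_, rfl⟩
  have hδ' : 0 < δ' := by rw [hδd]; exact lt_min hδ (by positivity)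
  have hδ1 : δ' ≤ δ := by rw [hδd]; exact min_le_left _ _
  have hδ2 : δ' ≤ c0 / 2 := by rw [hδd]; exact min_le_right _ _
  obtain ⟨c, hcd⟩ : ∃ c : ℝ, c = min (c0 ^ 2 / 128) δ' := ⟨_, rfl⟩
  have hc : 0 < c := by rw [hcd]; exact lt_min (by positivity) hδ'
  have hcc0 : c ≤ c0 ^ 2 / 128 := by rw [hcd]; exact min_le_left _ _
  have hcδ : c ≤ δ' := by rw [hcd]; exact min_le_right _ _
  have hc1' : c ≤ 1 := by linarith
  refine ⟨c, hc, hc1', max (max d1 (8 / c0)) 1, lt_of_lt_of_le one_pos (le_max_right _ _), ?_⟩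
  intro V _ G H d hdd0 hV hHG hdeg hfree hemp hsum
  have hd1 : d1 ≤ d := (le_max_left _ _).trans ((le_max_left _ _).trans hdd0)
  have hd2 : 8 / c0 ≤ d := (le_max_right _ _).trans ((le_max_left _ _).trans hdd0)
  have hd3 : 1 ≤ d := (le_max_right _ _).trans hdd0
  have hd : 0 < d := by linarith
  have hd4 : 1 ≤ c0 / 8 * d := by
    rw [div_le_iff₀ hc0] at hd2
    linarith
  have hdegH : ∀ v, ((nb H v).card : ℝ) ≤ d := by
    intro v
    refine le_trans ?_ (hdeg v)
    have : nb H v ⊆ nb G v := by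
      intro x hx
      rw [mem_nb] at hx ⊢
      exact hHG hx
    exact_mod_cast Finset.card_le_card this
  by_contra hcon
  push Not at hcon
  obtain ⟨U, hUne, hmin⟩ := Pool.Agent.R50.MC.prune (G := H) hV hc0 hd hsum
  have hdc : d ≤ d / c := by
    rw [le_div_iff₀ hc]
    nlinarith
  have hbad : ∀ z, ∑ x ∈ nb H z, ((bd G H U (δ' * d) z x).card : ℝ) ≤ c0 / 8 * d * (c0 / 8 * d) := by
    intro z
    refine (sum_bd G H U (δ' * d) z).trans ?_
    have h1 := hcon (nb H z) (nb G z) ((hdegH z).trans hdc) ((hdeg z).trans hdc)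
    have h2 := hcon (nb H z) ((Finset.univ : Finset V).filter (fun w => δ' * d ≤ (cd H z w : ℝ)))
      ((hdegH z).trans hdc) ((heavy_le H hd hδ' hdegH z).trans
        (div_le_div_of_nonneg_left hd.le hc hcδ))
    have h3 : c * d * d ≤ c0 ^ 2 / 128 * d * d := by
      apply mul_le_mul_of_nonneg_right _ hd.le
      exact mul_le_mul_of_nonneg_right hcc0 hd.le
    have h4 : c0 / 8 * d * (c0 / 8 * d) = 2 * (c0 ^ 2 / 128 * d * d) := by ring
    rw [h4]
    linarith
  -- few arcs at each vertex have many bad continuations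
  have hfew : ∀ z, (((nb H z ∩ U).filter
      (fun x => c0 / 8 * d ≤ ((bd G H U (δ' * d) z x).card : ℝ))).card : ℝ) ≤ c0 / 8 * d := by
    intro z
    have h1 : (((nb H z ∩ U).filter
        (fun x => c0 / 8 * d ≤ ((bd G H U (δ' * d) z x).card : ℝ))).card : ℝ) *
        (c0 / 8 * d) ≤ c0 / 8 * d * (c0 / 8 * d) := by
      refine le_trans ?_ (hbad z)
      rw [← nsmul_eq_mul, ← Finset.sum_const]
      calc ∑ x ∈ (nb H z ∩ U).filter
            (fun x => c0 / 8 * d ≤ ((bd G H U (δ' * d) z x).card : ℝ)), c0 / 8 * d ≤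
            ∑ x ∈ (nb H z ∩ U).filter
              (fun x => c0 / 8 * d ≤ ((bd G H U (δ' * d) z x).card : ℝ)),
              ((bd G H U (δ' * d) z x).card : ℝ) :=
            Finset.sum_le_sum fun x hx => (Finset.mem_filter.1 hx).2
        _ ≤ ∑ x ∈ nb H z, ((bd G H U (δ' * d) z x).card : ℝ) :=
            Finset.sum_le_sum_of_subset_of_nonneg
              ((Finset.filter_subset _ _).trans Finset.inter_subset_left)
              (fun _ _ _ => Nat.cast_nonneg _)
    exact le_of_mul_le_mul_right h1 (by positivity)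
  obtain ⟨A, hA⟩ : ∃ A : V → V → Prop, A = fun z x => H.Adj z x ∧ z ∈ U ∧ x ∈ U ∧
      ((bd G H U (δ' * d) z x).card : ℝ) < c0 / 8 * d := ⟨_, rfl⟩
  obtain ⟨Λ, hΛ⟩ : ∃ Λ : V → V → Finset V, Λ = fun z x => (nb H x ∩ U).filter (fun w =>
      A x w ∧ w ≠ z ∧ ¬ G.Adj z w ∧ (cd H z w : ℝ) < δ' * d) := ⟨_, rfl⟩
  have hcdz : ∀ z ∈ U, δ' * d ≤ (cd H z z : ℝ) := by
    intro z hz
    rw [cd_self]
    have h1 := hmin z hz
    have h2 : ((nb H z ∩ U).card : ℝ) ≤ (nb H z).card := by
      exact_mod_cast Finset.card_le_card Finset.inter_subset_left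
    have := mul_le_mul_of_nonneg_right hδ2 hd.le
    linarith
  have hsys : LightSystem G d δ (c0 / 8) A Λ :=
    { adj := fun z x h => by
        rw [hA] at h
        exact hHG h.1
      deg := fun v => by
        have := hdeg v
        unfold nb at this
        exact this
      cont := by
        intro z x _ w hw
        rw [hΛ] at hw
        have h1 := (Finset.mem_filter.1 hw).2
        exact ⟨h1.1, h1.2.1, h1.2.2.1⟩
      large := by
        intro z x hzx
        have hzx' : H.Adj z x ∧ z ∈ U ∧ x ∈ U ∧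
            ((bd G H U (δ' * d) z x).card : ℝ) < c0 / 8 * d := by
          rw [hA] at hzx
          exact hzx
        have h1 : nb H x ∩ U ⊆ Λ z x ∪ (bd G H U (δ' * d) z x ∪
            (nb H x ∩ U).filter (fun w => c0 / 8 * d ≤ ((bd G H U (δ' * d) x w).card : ℝ))) := by
          intro w hw
          rw [Finset.mem_union, Finset.mem_union]
          by_cases h2 : c0 / 8 * d ≤ ((bd G H U (δ' * d) x w).card : ℝ)
          · exact Or.inr (Or.inr (Finset.mem_filter.2 ⟨hw, h2⟩))
          · by_cases h3 : G.Adj z w ∨ δ' * d ≤ (cd H z w : ℝ)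
            · right
              left
              unfold bd
              exact Finset.mem_filter.2 ⟨hw, h3⟩
            · left
              rw [not_or, not_le] at h3
              rw [hΛ]
              refine Finset.mem_filter.2 ⟨hw, ?_, ?_, h3.1, h3.2⟩
              · rw [hA]
                rw [Finset.mem_inter, mem_nb] at hw
                exact ⟨hw.1, hzx'.2.2.1, hw.2, not_le.1 h2⟩
              · rintro rfl
                have := hcdz w hzx'.2.1
                linarith [h3.2]
        have h2 := (Finset.card_le_card h1).trans ((Finset.card_union_le _ _).trans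
          (Nat.add_le_add_left (Finset.card_union_le _ _) _))
        have h3 : ((nb H x ∩ U).card : ℝ) ≤ (Λ z x).card + ((bd G H U (δ' * d) z x).card +
            ((nb H x ∩ U).filter
              (fun w => c0 / 8 * d ≤ ((bd G H U (δ' * d) x w).card : ℝ))).card) := by
          exact_mod_cast h2
        have h4 := hfew x
        have h5 := hmin x hzx'.2.2.1
        have h6 : 0 < c0 * d := mul_pos hc0 hd
        linarith [hzx'.2.2.2]
      light := by
        intro z y
        have key : ∀ S : Finset V, (∀ x ∈ S, H.Adj z x ∧ y ∈ Λ z x) →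
            (S.card : ℝ) ≤ δ * d := by
          intro S hS
          rcases S.eq_empty_or_nonempty with rfl | ⟨x, hx⟩
          · simp only [Finset.card_empty, Nat.cast_zero]
            positivity
          · have hy := (hS x hx).2
            rw [hΛ] at hy
            have h4 := (Finset.mem_filter.1 hy).2.2.2.2
            refine le_trans ?_ (h4.le.trans (mul_le_mul_of_nonneg_right hδ1 hd.le))
            have : S.card ≤ cd H z y := by
              unfold cd
              apply Finset.card_le_card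
              intro x' hx'
              obtain ⟨h5, h6⟩ := hS x' hx'
              rw [hΛ] at h6
              have h7 := (Finset.mem_inter.1 (Finset.mem_filter.1 h6).1).1
              rw [mem_nb] at h7
              exact Finset.mem_filter.2 ⟨Finset.mem_univ _, h5, h7.symm⟩
            exact_mod_cast this
        exact key _ (fun x hx => by
          have h1 := ((@Finset.mem_filter _ _ (_) _ _).1 hx).2
          refine ⟨?_, h1.2⟩
          have h2 := h1.1
          rw [hA] at h2
          exact h2.1) }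
  obtain ⟨v0, hv0⟩ := hUne
  have hex : ∃ z x, A z x := by
    by_contra hcon2
    push Not at hcon2
    have h1 : nb H v0 ∩ U ⊆ (nb H v0 ∩ U).filter
        (fun x => c0 / 8 * d ≤ ((bd G H U (δ' * d) v0 x).card : ℝ)) := by
      intro x hx
      refine Finset.mem_filter.2 ⟨hx, ?_⟩
      by_contra h2
      apply hcon2 v0 x
      rw [hA]
      rw [Finset.mem_inter, mem_nb] at hx
      exact ⟨hx.1, hv0, hx.2, not_le.1 h2⟩
    have h2 : ((nb H v0 ∩ U).card : ℝ) ≤ ((nb H v0 ∩ U).filter (fun x => c0 / 8 * d ≤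
        ((bd G H U (δ' * d) v0 x).card : ℝ))).card := by exact_mod_cast Finset.card_le_card h1
    have h3 := hfew v0
    have h4 := hmin v0 hv0
    have h6 : 0 < c0 * d := mul_pos hc0 hd
    linarith
  obtain ⟨f, hf1, hf2⟩ := hemb V G d A Λ hd1 hsys hex (hfree.mono (by omega)) m (by omega)
    (Fin (m + 1)) T hT (by simp)
  exact hemp.false { toFun := f, inj' := hf1, map_rel_iff' := fun {a b} => (hf2 a b).symm }

end Pool.Agent.T9h44.GS
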