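import Pool.Agent.T9h44.GS.Find

set_option autoImplicit false

/-!
# Refining a dense spot to a nearly complete pair
-/

namespace Pool.Agent.T9h44.GS

open Finset Pool.Agent.Y394.AT

set_option linter.unusedSectionVars false

/-- A nearly complete pair `A`, `B` of `G` with large degrees in `H`. -/
structure NPair {V : Type} [Fintype V] (G H : SimpleGraph V) (ε r : ℝ) (A B : Finset V) :
    Prop where
  neA : A.Nonempty
  neB : B.Nonempty
  disj : Disjoint A B
  degA : ∀ a ∈ A, r ≤ dg H B a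
  degB : ∀ b ∈ B, r ≤ dg H A b
  comA : ∀ a ∈ A, (1 - ε) * B.card ≤ dg G B a
  comB : ∀ b ∈ B, (1 - ε) * A.card ≤ dg G A b

theorem NPair.mono {V : Type} [Fintype V] {G H : SimpleGraph V} {ε r r' : ℝ} {A B : Finset V}
    (h : NPair G H ε r A B) (hr : r' ≤ r) : NPair G H ε r' A B :=
  ⟨h.neA, h.neB, h.disj, fun a ha => hr.trans (h.degA a ha), fun b hb => hr.trans (h.degB b hb),
    h.comA, h.comB⟩

open Classical in
theorem dg_compl {V : Type} [Fintype V] (G : SimpleGraph V) (B : Finset V) (v : V) :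
    dg G B v = B.card - ((B.filter (fun b => ¬ G.Adj v b)).card : ℝ) := by
  rw [dg_eq]
  have := Finset.card_filter_add_card_filter_not (s := B) (fun b => G.Adj v b)
  have h2 : (((B.filter (fun b => G.Adj v b)).card : ℝ)) +
      ((B.filter (fun b => ¬ G.Adj v b)).card : ℝ) = B.card := by exact_mod_cast this
  linarith

open Classical in
/-- Refinement of a dense spot. -/
theorem refine_spot (N : ℕ) (c ε : ℝ) (hc : 0 < c) (hc1 : c ≤ 1) (hε : 0 < ε) (hε1 : ε ≤ 1) :
    ∃ c' : ℝ, 0 < c' ∧ ∀ (V : Type) [Fintype V] (G H : SimpleGraph V) (d : ℝ), 0 < d →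
      H ≤ G → (∀ v, ((nb G v).card : ℝ) ≤ d) →
      (∀ X : Finset V, Pool.Agent.W259.GS.Sh G X Set.univ → X.card < N) →
      ∀ A B : Finset V, Disjoint A B → (A.card : ℝ) ≤ d / c → (B.card : ℝ) ≤ d / c →
        c * d * d ≤ ee H A B →
        ∃ A' B' : Finset V, NPair G H ε (c' * d) A' B' := by
  obtain ⟨c1, hc1d⟩ : ∃ c1 : ℝ, c1 = c ^ 2 / 4 := ⟨_, rfl⟩
  have hc10 : 0 < c1 := by rw [hc1d]; positivity
  have hc11 : c1 ≤ 1 := by rw [hc1d]; nlinarith
  -- `η`: closeness of neighbourhoods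
  obtain ⟨η, hηd⟩ : ∃ η : ℝ, η = (ε * c1 / 32) ^ 2 := ⟨_, rfl⟩
  have hη0 : 0 < η := by rw [hηd]; positivity
  have hεc : ε * c1 / 32 ≤ 1 / 32 := by nlinarith
  have hεc0 : 0 < ε * c1 / 32 := by positivity
  have hη1 : η ≤ ε * c1 / 32 := by rw [hηd]; nlinarith
  have hη2 : η ≤ c1 / 32 := by nlinarith
  obtain ⟨M, hM⟩ := packing_unif N (η * c) (by positivity)
  refine ⟨c1 ^ 2 / (16 * (M + 1)), by positivity, ?_⟩
  intro V _ G H d hd hHG hdeg hsh A B hAB hA hB hee
  -- first pruning
  have hp1 : c1 * d * A.card + c1 * d * B.card < ee H A B := by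
    refine lt_of_lt_of_le ?_ hee
    have h1 : c1 * d * (A.card : ℝ) + c1 * d * B.card ≤ c1 * d * (d / c) + c1 * d * (d / c) := by
      apply add_le_add
      · exact mul_le_mul_of_nonneg_left hA (by positivity)
      · exact mul_le_mul_of_nonneg_left hB (by positivity)
    refine lt_of_le_of_lt h1 ?_
    have h2 : c1 * d * (d / c) + c1 * d * (d / c) = c * d * d / 2 := by
      rw [hc1d]
      field_simp
      ring
    rw [h2]
    have : 0 < c * d * d := by positivity
    linarith
  obtain ⟨A1, B1, hA1, hB1, hA1n, hB1n, hdA1, hdB1⟩ := prune2 H (c1 * d) (c1 * d) A B hp1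
    (by positivity) (by positivity)
  have hB1c : (B1.card : ℝ) ≤ d / c := le_trans (by exact_mod_cast Finset.card_le_card hB1) hB
  have hA1c : c1 * d ≤ (A1.card : ℝ) := by
    obtain ⟨b, hb⟩ := hB1n
    exact (hdB1 b hb).le.trans (dg_le_card H A1 b)
  -- net
  obtain ⟨far, hfar⟩ : ∃ far : V → V → Prop, ∀ u v, far u v ↔ η * c * (B1.card : ℝ) ≤
      Set.ncard {z | z ∈ B1 ∧ ¬ (G.Adj u z ↔ G.Adj v z)} := ⟨_, fun _ _ => Iff.rfl⟩
  obtain ⟨U, hUA, hUf, hUc⟩ := exists_net A1 far (by
    intro u v h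
    rw [hfar] at h ⊢
    have : {z | z ∈ B1 ∧ ¬ (G.Adj v z ↔ G.Adj u z)} = {z | z ∈ B1 ∧ ¬ (G.Adj u z ↔ G.Adj v z)} := by
      ext z
      simp only [Set.mem_ofPred_eq]
      tauto
    rw [this]
    exact h)
  have hUM : U.card < M := hM V G B1 hB1n hsh U (fun u hu v hv huv => (hfar u v).1 (hUf u hu v hv huv))
  -- a large cluster
  obtain ⟨a0, ha0U, ha0⟩ : ∃ a0 ∈ U, (A1.card : ℝ) ≤ (M + 1) *
      ((A1.filter (fun x => x = a0 ∨ ¬ far x a0)).card : ℝ) := by
    by_contra hcon
    push Not at hcon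
    have h1 : A1 ⊆ U.biUnion (fun a0 => A1.filter (fun x => x = a0 ∨ ¬ far x a0)) := by
      intro x hx
      rw [Finset.mem_biUnion]
      obtain ⟨a, ha, hxa⟩ := hUc x hx
      exact ⟨a, ha, Finset.mem_filter.2 ⟨hx, hxa⟩⟩
    have h2 : (A1.card : ℝ) ≤ ∑ a0 ∈ U, ((A1.filter (fun x => x = a0 ∨ ¬ far x a0)).card : ℝ) := by
      exact_mod_cast (Finset.card_le_card h1).trans Finset.card_biUnion_le
    have h3 : ∑ a0 ∈ U, ((A1.filter (fun x => x = a0 ∨ ¬ far x a0)).card : ℝ) ≤
        ∑ a0 ∈ U, (A1.card : ℝ) / (M + 1) := by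
      apply Finset.sum_le_sum
      intro a ha
      rw [le_div_iff₀ (by positivity)]
      have := hcon a ha
      linarith
    rw [Finset.sum_const, nsmul_eq_mul] at h3
    have h4 : (U.card : ℝ) ≤ M := by exact_mod_cast hUM.le
    have h5 : (0 : ℝ) < A1.card := by exact_mod_cast Finset.card_pos.2 hA1n
    have h6 : (U.card : ℝ) * ((A1.card : ℝ) / (M + 1)) ≤ M * ((A1.card : ℝ) / (M + 1)) :=
      mul_le_mul_of_nonneg_right h4 (by positivity)
    have h7 : (M : ℝ) * ((A1.card : ℝ) / (M + 1)) < A1.card := by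
      rw [← mul_div_assoc, div_lt_iff₀ (by positivity)]
      nlinarith
    linarith
  obtain ⟨A2, hA2d⟩ : ∃ A2 : Finset V, A2 = A1.filter (fun x => x = a0 ∨ ¬ far x a0) := ⟨_, rfl⟩
  rw [← hA2d] at ha0
  obtain ⟨B2, hB2d⟩ : ∃ B2 : Finset V, B2 = B1.filter (fun b => G.Adj a0 b) := ⟨_, rfl⟩
  have hA2A1 : A2 ⊆ A1 := by rw [hA2d]; exact Finset.filter_subset _ _
  have hB2B1 : B2 ⊆ B1 := by rw [hB2d]; exact Finset.filter_subset _ _
  have hclose : ∀ a ∈ A2, ∀ S : Finset V, S ⊆ B1 → (∀ z ∈ S, ¬ (G.Adj a z ↔ G.Adj a0 z)) →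
      (S.card : ℝ) ≤ η * d := by
    intro a ha S hS hSz
    rw [hA2d, Finset.mem_filter] at ha
    rcases ha.2 with h | h
    · have : S = ∅ := by
        rw [Finset.eq_empty_iff_forall_notMem]
        intro z hz
        apply hSz z hz
        rw [h]
      rw [this]
      simp only [Finset.card_empty, Nat.cast_zero]
      positivity
    · rw [hfar, not_le] at h
      have h1 : (S.card : ℝ) ≤ (Set.ncard {z | z ∈ B1 ∧ ¬ (G.Adj a z ↔ G.Adj a0 z)} : ℝ) := by
        have h2 : (S : Set V) ⊆ {z | z ∈ B1 ∧ ¬ (G.Adj a z ↔ G.Adj a0 z)} := by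
          intro z hz
          exact ⟨hS hz, hSz z hz⟩
        have h3 := Set.ncard_le_ncard h2 (Set.toFinite _)
        rw [Set.ncard_coe_finset] at h3
        exact_mod_cast h3
      have h4 : η * c * (B1.card : ℝ) ≤ η * d := by
        have h5 : c * (B1.card : ℝ) ≤ d := by
          rw [le_div_iff₀ hc] at hB1c
          linarith
        calc η * c * (B1.card : ℝ) = η * (c * B1.card) := by ring
          _ ≤ η * d := mul_le_mul_of_nonneg_left h5 hη0.le
      linarith
  have hA2n : A2.Nonempty := by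
    rw [← Finset.card_pos]
    have h5 : (0 : ℝ) < A1.card := by exact_mod_cast Finset.card_pos.2 hA1n
    have h6 : (0 : ℝ) < (M + 1) * (A2.card : ℝ) := lt_of_lt_of_le h5 ha0
    have h7 : (0 : ℝ) < (A2.card : ℝ) := by
      by_contra h8
      push Not at h8
      have : ((M : ℝ) + 1) * (A2.card : ℝ) ≤ 0 := mul_nonpos_of_nonneg_of_nonpos (by positivity) h8
      linarith
    exact_mod_cast h7
  have hB2c : (B2.card : ℝ) ≤ d := by
    refine le_trans ?_ (hdeg a0)
    have : B2 ⊆ nb G a0 := by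
      intro x hx
      rw [hB2d] at hx
      rw [mem_nb]
      exact (Finset.mem_filter.1 hx).2
    exact_mod_cast Finset.card_le_card this
  -- degrees from `A2` to `B2`
  have hdA2 : ∀ a ∈ A2, c1 / 2 * d ≤ dg H B2 a := by
    intro a ha
    have h1 := hdA1 a (hA2A1 ha)
    have h2 : dg H B1 a ≤ dg H B2 a + η * d := by
      have h3 : B1.filter (fun b => H.Adj a b) ⊆ B2.filter (fun b => H.Adj a b) ∪
          B1.filter (fun b => H.Adj a b ∧ ¬ G.Adj a0 b) := by
        intro x hx
        rw [Finset.mem_filter] at hx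
        rw [Finset.mem_union, Finset.mem_filter, Finset.mem_filter]
        by_cases h4 : G.Adj a0 x
        · left
          refine ⟨?_, hx.2⟩
          rw [hB2d]
          exact Finset.mem_filter.2 ⟨hx.1, h4⟩
        · exact Or.inr ⟨hx.1, hx.2, h4⟩
      have h5 := (Finset.card_le_card h3).trans (Finset.card_union_le _ _)
      have h6 := hclose a ha (B1.filter (fun b => H.Adj a b ∧ ¬ G.Adj a0 b))
        (Finset.filter_subset _ _) (by
          intro z hz hiff
          have h7 := (Finset.mem_filter.1 hz).2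
          exact h7.2 (hiff.1 (hHG h7.1)))
      rw [dg_eq, dg_eq]
      have h8 : ((B1.filter (fun b => H.Adj a b)).card : ℝ) ≤
          (B2.filter (fun b => H.Adj a b)).card +
          (B1.filter (fun b => H.Adj a b ∧ ¬ G.Adj a0 b)).card := by exact_mod_cast h5
      linarith
    have h3 : η * d ≤ c1 / 32 * d := mul_le_mul_of_nonneg_right hη2 hd.le
    have h4 : 0 < c1 * d := by positivity
    linarith
  have hmA2 : ∀ a ∈ A2, ∀ S : Finset V, S ⊆ B2 →
      ((S.filter (fun b => ¬ G.Adj a b)).card : ℝ) ≤ η * d := by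
    intro a ha S hS
    apply hclose a ha _ ((Finset.filter_subset _ _).trans (hS.trans hB2B1))
    intro z hz hiff
    have h7 := Finset.mem_filter.1 hz
    have h8 := hS h7.1
    rw [hB2d] at h8
    exact h7.2 (hiff.2 (Finset.mem_filter.1 h8).2)
  have hA2pos : (0 : ℝ) < A2.card := by exact_mod_cast Finset.card_pos.2 hA2n
  -- second pruning
  have hp2 : c1 / 8 * d * A2.card + c1 / 8 * A2.card * B2.card < ee H A2 B2 := by
    have h1 : c1 / 2 * d * A2.card ≤ ee H A2 B2 := by
      unfold ee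
      calc c1 / 2 * d * (A2.card : ℝ) = ∑ a ∈ A2, c1 / 2 * d := by
            rw [Finset.sum_const, nsmul_eq_mul]
            ring
        _ ≤ _ := Finset.sum_le_sum hdA2
    refine lt_of_lt_of_le ?_ h1
    have h2 : c1 / 8 * (A2.card : ℝ) * B2.card ≤ c1 / 8 * A2.card * d :=
      mul_le_mul_of_nonneg_left hB2c (by positivity)
    have h3 : 0 < c1 * d * A2.card := by positivity
    nlinarith
  obtain ⟨A3, B3, hA3, hB3, hA3n, hB3n, hdA3, hdB3⟩ := prune2 H (c1 / 8 * d) (c1 / 8 * A2.card)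
    A2 B2 hp2 (by positivity) (by positivity)
  have hA3pos : (0 : ℝ) < A3.card := by exact_mod_cast Finset.card_pos.2 hA3n
  -- remove the vertices of `B3` with many non-neighbours
  obtain ⟨B4, hB4d⟩ : ∃ B4 : Finset V, B4 = B3.filter (fun b =>
      ((A3.filter (fun a => ¬ G.Adj b a)).card : ℝ) ≤ ε * A3.card) := ⟨_, rfl⟩
  have hB4B3 : B4 ⊆ B3 := by rw [hB4d]; exact Finset.filter_subset _ _
  have hB4c : ((B3 \ B4).card : ℝ) ≤ c1 / 16 * d := by
    have h1 : ((B3 \ B4).card : ℝ) * (ε * A3.card) ≤ A3.card * (η * d) := by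
      calc ((B3 \ B4).card : ℝ) * (ε * A3.card) = ∑ b ∈ B3 \ B4, ε * (A3.card : ℝ) := by
            rw [Finset.sum_const, nsmul_eq_mul]
        _ ≤ ∑ b ∈ B3 \ B4, ((A3.filter (fun a => ¬ G.Adj b a)).card : ℝ) := by
            apply Finset.sum_le_sum
            intro b hb
            rw [Finset.mem_sdiff] at hb
            by_contra h2
            push Not at h2
            apply hb.2
            rw [hB4d]
            exact Finset.mem_filter.2 ⟨hb.1, h2.le⟩
        _ ≤ ∑ b ∈ B3, ((A3.filter (fun a => ¬ G.Adj b a)).card : ℝ) :=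
            Finset.sum_le_sum_of_subset_of_nonneg Finset.sdiff_subset
              (fun _ _ _ => Nat.cast_nonneg _)
        _ = ∑ a ∈ A3, ((B3.filter (fun b => ¬ G.Adj a b)).card : ℝ) := by
            have h2 : ∀ b ∈ B3, ((A3.filter (fun a => ¬ G.Adj b a)).card : ℝ) =
                ∑ a ∈ A3, if ¬ G.Adj a b then (1 : ℝ) else 0 := by
              intro b _
              rw [← Finset.sum_filter, Finset.sum_const, nsmul_eq_mul, mul_one]
              congr 2
              ext a
              simp only [Finset.mem_filter]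
              rw [G.adj_comm]
            have h3 : ∀ a ∈ A3, ((B3.filter (fun b => ¬ G.Adj a b)).card : ℝ) =
                ∑ b ∈ B3, if ¬ G.Adj a b then (1 : ℝ) else 0 := by
              intro a _
              rw [← Finset.sum_filter, Finset.sum_const, nsmul_eq_mul, mul_one]
            rw [Finset.sum_congr rfl h2, Finset.sum_congr rfl h3, Finset.sum_comm]
        _ ≤ ∑ a ∈ A3, η * d := Finset.sum_le_sum fun a ha => hmA2 a (hA3 ha) B3 hB3
        _ = A3.card * (η * d) := by rw [Finset.sum_const, nsmul_eq_mul]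
    have h2 : ((B3 \ B4).card : ℝ) * ε ≤ η * d := by
      have h3 : ((B3 \ B4).card : ℝ) * ε * A3.card ≤ η * d * A3.card := by linarith
      exact le_of_mul_le_mul_right h3 hA3pos
    have h4 : η * d ≤ ε * (c1 / 16 * d) := by
      have : η ≤ ε * (c1 / 16) := by linarith
      calc η * d ≤ ε * (c1 / 16) * d := mul_le_mul_of_nonneg_right this hd.le
        _ = _ := by ring
    have h5 : ((B3 \ B4).card : ℝ) * ε ≤ (c1 / 16 * d) * ε := by linarith
    exact le_of_mul_le_mul_right h5 hε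
  have hdA4 : ∀ a ∈ A3, c1 / 16 * d ≤ dg H B4 a := by
    intro a ha
    have h1 := hdA3 a ha
    have h2 : dg H B3 a ≤ dg H B4 a + ((B3 \ B4).card : ℝ) := by
      rw [dg_eq, dg_eq]
      have h3 : B3.filter (fun b => H.Adj a b) ⊆ B4.filter (fun b => H.Adj a b) ∪ (B3 \ B4) := by
        intro x hx
        rw [Finset.mem_filter] at hx
        rw [Finset.mem_union, Finset.mem_filter, Finset.mem_sdiff]
        by_cases h4 : x ∈ B4
        · exact Or.inl ⟨h4, hx.2⟩
        · exact Or.inr ⟨hx.1, h4⟩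
      exact_mod_cast (Finset.card_le_card h3).trans (Finset.card_union_le _ _)
    linarith
  have hB4n : B4.Nonempty := by
    obtain ⟨a, ha⟩ := hA3n
    rw [Finset.nonempty_iff_ne_empty]
    intro h4
    have h5 := hdA4 a ha
    rw [h4] at h5
    unfold dg at h5
    simp only [Finset.sum_empty] at h5
    have : 0 < c1 / 16 * d := by positivity
    linarith
  have hB4card : c1 / 16 * d ≤ (B4.card : ℝ) := by
    obtain ⟨a, ha⟩ := hA3n
    exact (hdA4 a ha).trans (dg_le_card H B4 a)
  refine ⟨A3, B4, hA3n, hB4n, ?_, ?_, ?_, ?_, ?_⟩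
  · exact Finset.disjoint_of_subset_left ((hA3.trans hA2A1).trans hA1)
      (Finset.disjoint_of_subset_right ((hB4B3.trans hB3).trans (hB2B1.trans hB1)) hAB)
  · intro a ha
    refine le_trans ?_ (hdA4 a ha)
    apply mul_le_mul_of_nonneg_right _ hd.le
    rw [div_le_div_iff₀ (by positivity) (by norm_num)]
    have h1 : c1 ^ 2 ≤ c1 := by nlinarith
    have h2 : (0 : ℝ) ≤ c1 * M := by positivity
    nlinarith
  · intro b hb
    refine le_trans ?_ (hdB3 b (hB4B3 hb)).le
    have h1 : c1 * d ≤ (M + 1) * (A2.card : ℝ) := hA1c.trans ha0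
    rw [div_mul_eq_mul_div, div_le_iff₀ (by positivity)]
    have h2 : c1 * (c1 * d) ≤ c1 * ((M + 1) * (A2.card : ℝ)) :=
      mul_le_mul_of_nonneg_left h1 hc10.le
    have h3 : 0 ≤ c1 * ((M + 1) * (A2.card : ℝ)) := by positivity
    nlinarith
  · intro a ha
    rw [dg_compl]
    have h1 := hmA2 a (hA3 ha) B4 (hB4B3.trans hB3)
    have h2 : η * d ≤ ε * B4.card := by
      have h3 : ε * (c1 / 16 * d) ≤ ε * B4.card := mul_le_mul_of_nonneg_left hB4card hε.le
      have h4 : η * d ≤ ε * (c1 / 16) * d := by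
        apply mul_le_mul_of_nonneg_right _ hd.le
        linarith
      linarith
    linarith
  · intro b hb
    rw [dg_compl]
    rw [hB4d] at hb
    have h1 := (Finset.mem_filter.1 hb).2
    linarith

end Pool.Agent.T9h44.GS
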